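import Mathlib
import Pool.Agent.VM5.Stmts

/-!
# CNU (squad VMF): integers with small fractional part, from a rational approximation
-/

set_option autoImplicit false

namespace Pool.Agent.VM5.H48

open Pool.Agent.VM (Nr)

/-- the distance of `t n` to the integers for `0 < |n| < U / 2` -/
theorem dist_lb (t : ℝ) (b : ℤ) (U : ℕ) (hU : 1 ≤ U) (hb : Int.gcd b (U : ℤ) = 1)
    (ht : |t - (b : ℝ) / (U : ℝ)| ≤ 1 / (U : ℝ) ^ 2) (n z : ℤ) (hn : n ≠ 0)
    (hn2 : 2 * |n| < (U : ℤ)) : 1 / (2 * (U : ℝ)) < |t * (n : ℝ) - (z : ℝ)| := by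
  have hU0 : (0 : ℝ) < U := by exact_mod_cast hU
  have h1 : b * n - z * U ≠ 0 := by
    intro h
    have h2 : (U : ℤ) ∣ b * n := ⟨z, by linarith⟩
    have h3 : IsCoprime (U : ℤ) b := by
      rw [Int.isCoprime_iff_gcd_eq_one, Int.gcd_comm]
      exact hb
    have h4 : (U : ℤ) ∣ n := h3.dvd_of_dvd_mul_left h2
    have h5 : (U : ℤ) ≤ |n| := Int.le_of_dvd (abs_pos.2 hn) ((dvd_abs _ _).2 h4)
    have h6 : 0 < |n| := abs_pos.2 hn
    omega
  have h2 : (1 : ℝ) ≤ |(b : ℝ) * n - z * U| := by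
    have h3 : (1 : ℤ) ≤ |b * n - z * U| := Int.one_le_abs h1
    have h4 : ((1 : ℤ) : ℝ) ≤ ((|b * n - z * U| : ℤ) : ℝ) := by exact_mod_cast h3
    rw [Int.cast_abs] at h4
    push_cast at h4
    exact h4
  have h3 : (1 : ℝ) / U ≤ |(b : ℝ) / U * n - z| := by
    have h4 : (b : ℝ) / U * n - z = ((b : ℝ) * n - z * U) / U := by
      field_simp
    rw [h4, abs_div, abs_of_pos hU0]
    gcongr
  have h4 : |(t - (b : ℝ) / U) * n| < 1 / (2 * (U : ℝ)) := by
    rw [abs_mul]
    have h5 : |(n : ℝ)| < (U : ℝ) / 2 := by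
      have h6 : ((2 * |n| : ℤ) : ℝ) < ((U : ℤ) : ℝ) := by exact_mod_cast hn2
      push_cast at h6
      linarith
    have h6 : (0 : ℝ) < 1 / (U : ℝ) ^ 2 := by positivity
    calc |t - (b : ℝ) / U| * |(n : ℝ)| ≤ 1 / (U : ℝ) ^ 2 * |(n : ℝ)| := by gcongr
      _ < 1 / (U : ℝ) ^ 2 * ((U : ℝ) / 2) := by gcongr
      _ = 1 / (2 * (U : ℝ)) := by
        field_simp
  have h5 : (b : ℝ) / U * n - z = (t * n - z) - (t - (b : ℝ) / U) * n := by ring
  rw [h5] at h3
  have h6 := abs_sub (t * (n : ℝ) - z) ((t - (b : ℝ) / U) * n)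
  have h7 : (1 : ℝ) / U = 1 / (2 * U) + 1 / (2 * U) := by
    field_simp
    norm_num
  linarith

theorem cnu : CnuStmt := by
  intro t η b U X hU hb ht hη
  classical
  have hU0 : (0 : ℝ) < U := by exact_mod_cast hU
  obtain ⟨B, hB⟩ : ∃ B : ℕ, B = (U + 1) / 2 := ⟨_, rfl⟩
  have hB1 : 1 ≤ B := by omega
  have hB2 : U ≤ 2 * B := by omega
  have hB3 : 2 * B ≤ U + 1 := by omega
  have hc : Nat.card {m : ℤ // |m| ≤ (X : ℤ) ∧ Nr (t * (m : ℝ)) η} =
      ((Finset.Icc (-(X : ℤ)) (X : ℤ)).filter (fun m : ℤ => Nr (t * (m : ℝ)) η)).card := by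
    refine Nat.subtype_card _ ?_
    intro x
    rw [Finset.mem_filter, Finset.mem_Icc, ← abs_le]
  rw [hc]
  obtain ⟨y, hy⟩ : ∃ y : ℤ → ℝ, ∀ m, y m = t * (m : ℝ) - (round (t * (m : ℝ)) : ℤ) :=
    ⟨fun m => t * (m : ℝ) - (round (t * (m : ℝ)) : ℤ), fun _ => rfl⟩
  have hyle : ∀ m : ℤ, Nr (t * (m : ℝ)) η → |y m| ≤ η := by
    intro m hm
    obtain ⟨z, hz⟩ := hm
    rw [hy]
    exact (round_le _ z).trans hz
  have hcard : ((Finset.Icc (-(X : ℤ)) (X : ℤ)).filter (fun m : ℤ => Nr (t * (m : ℝ)) η)).card ≤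
      (Finset.range (2 * X / B + 1) ×ˢ Finset.range (⌊4 * η * U⌋₊ + 1)).card := by
    refine Finset.card_le_card_of_injOn
      (fun m => ((m + X).toNat / B, ⌊(y m + η) * (2 * U)⌋₊)) ?_ ?_
    · intro m hm
      have hm' := hm
      rw [Finset.mem_coe, Finset.mem_filter, Finset.mem_Icc] at hm'
      obtain ⟨⟨h1, h2⟩, h3⟩ := hm'
      have h4 := abs_le.1 (hyle m h3)
      rw [Finset.mem_coe, Finset.mem_product]
      refine ⟨Finset.mem_range.2 ?_, Finset.mem_range.2 ?_⟩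
      · have h5 : (m + X).toNat ≤ 2 * X := by omega
        exact Nat.lt_succ_of_le (Nat.div_le_div_right h5)
      · refine Nat.lt_succ_of_le (Nat.floor_le_floor ?_)
        have h5 : y m + η ≤ 2 * η := by linarith [h4.2]
        calc (y m + η) * (2 * U) ≤ (2 * η) * (2 * U) := by gcongr
          _ = 4 * η * U := by ring
    · intro m hm m' hm' heq
      have e1 : (m + X).toNat / B = (m' + X).toNat / B := congrArg Prod.fst heq
      have e2 : ⌊(y m + η) * (2 * U)⌋₊ = ⌊(y m' + η) * (2 * U)⌋₊ := congrArg Prod.snd heq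
      rw [Finset.mem_coe, Finset.mem_filter, Finset.mem_Icc] at hm hm'
      by_contra hne
      have h1 : m - m' ≠ 0 := sub_ne_zero.2 hne
      have h2 : 2 * |m - m'| < (U : ℤ) := by
        have d1 := Nat.div_add_mod (m + X).toNat B
        have d2 := Nat.div_add_mod (m' + X).toNat B
        have d3 := Nat.mod_lt (m + X).toNat hB1
        have d4 := Nat.mod_lt (m' + X).toNat hB1
        rw [e1] at d1
        have d5 : ((m + X).toNat : ℤ) = m + X := Int.toNat_of_nonneg (by linarith [hm.1.1])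
        have d6 : ((m' + X).toNat : ℤ) = m' + X := Int.toNat_of_nonneg (by linarith [hm'.1.1])
        obtain ⟨p, hp⟩ : ∃ p : ℕ, p = B * ((m' + X).toNat / B) := ⟨_, rfl⟩
        rw [← hp] at d1 d2
        have d7 : |m - m'| < (B : ℤ) := by
          rw [abs_lt]
          constructor <;> omega
        have : (2 : ℤ) * B ≤ U + 1 := by exact_mod_cast hB3
        omega
      have h3 := dist_lb t b U hU hb ht (m - m')
        (round (t * (m : ℝ)) - round (t * (m' : ℝ))) h1 h2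
      have h4 : t * (((m - m' : ℤ)) : ℝ) - ((round (t * (m : ℝ)) - round (t * (m' : ℝ)) : ℤ) : ℝ) =
          y m - y m' := by
        rw [hy, hy]
        push_cast
        ring
      rw [h4] at h3
      have n1 : 0 ≤ (y m + η) * (2 * U) := by
        have := (abs_le.1 (hyle m hm.2)).1
        have h5 : 0 ≤ y m + η := by linarith
        positivity
      have n2 : 0 ≤ (y m' + η) * (2 * U) := by
        have := (abs_le.1 (hyle m' hm'.2)).1
        have h5 : 0 ≤ y m' + η := by linarith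
        positivity
      have f1 := Nat.floor_le n1
      have f2 := Nat.floor_le n2
      have f3 := Nat.lt_floor_add_one ((y m + η) * (2 * U))
      have f4 := Nat.lt_floor_add_one ((y m' + η) * (2 * U))
      rw [e2] at f1 f3
      have h5 : |(y m - y m') * (2 * U)| < 1 := by
        rw [abs_lt]
        constructor <;> nlinarith
      rw [abs_mul, abs_of_pos (by positivity : (0 : ℝ) < 2 * U)] at h5
      rw [div_lt_iff₀ (by positivity)] at h3
      linarith
  rw [Finset.card_product, Finset.card_range, Finset.card_range] at hcard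
  have h1 : ((2 * X / B + 1 : ℕ) : ℝ) ≤ 4 * (X : ℝ) / U + 1 := by
    push_cast
    have h2 : ((2 * X / B : ℕ) : ℝ) ≤ ((2 * X : ℕ) : ℝ) / B := Nat.cast_div_le
    have h3 : ((2 * X : ℕ) : ℝ) / B ≤ 4 * (X : ℝ) / U := by
      have hB0 : (0 : ℝ) < B := by exact_mod_cast hB1
      rw [div_le_div_iff₀ hB0 hU0]
      have h4 : (U : ℝ) ≤ 2 * B := by exact_mod_cast hB2
      push_cast
      have hX : (0 : ℝ) ≤ X := Nat.cast_nonneg _
      nlinarith
    linarith
  have h2 : ((⌊4 * η * U⌋₊ + 1 : ℕ) : ℝ) ≤ 4 * η * U + 1 := by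
    push_cast
    have := Nat.floor_le (by positivity : 0 ≤ 4 * η * (U : ℝ))
    linarith
  have hX : (0 : ℝ) ≤ (X : ℝ) / U := by positivity
  have hηU : (0 : ℝ) ≤ η * U := by positivity
  calc ((((Finset.Icc (-(X : ℤ)) (X : ℤ)).filter (fun m : ℤ => Nr (t * (m : ℝ)) η)).card : ℕ) : ℝ) ≤
      (((2 * X / B + 1) * (⌊4 * η * U⌋₊ + 1) : ℕ) : ℝ) := by exact_mod_cast hcard
    _ = ((2 * X / B + 1 : ℕ) : ℝ) * ((⌊4 * η * U⌋₊ + 1 : ℕ) : ℝ) := by push_cast; ring
    _ ≤ (4 * (X : ℝ) / U + 1) * (4 * η * U + 1) := by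
      refine mul_le_mul h1 h2 (by positivity) (by positivity)
    _ = (4 * ((X : ℝ) / U) + 1) * (4 * (η * U) + 1) := by ring
    _ ≤ (4 * ((X : ℝ) / U) + 4) * (4 * (η * U) + 4) := by
      refine mul_le_mul ?_ ?_ (by positivity) (by positivity) <;> linarith
    _ = 16 * ((X : ℝ) / (U : ℝ) + 1) * (η * (U : ℝ) + 1) := by ring

end Pool.Agent.VM5.H48
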