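import Mathlib
import Pool.Agent.VM5.Stmts

/-!
# CUB (squad VMF): the number of `h` with `gcd (h, u) = g` and `κ h ^ 3` in a set of residues
-/

set_option autoImplicit false

namespace Pool.Agent.VM5.H48

/-- The modulus. -/
theorem exists_M (u g : ℕ) (κ : ℤ) (hu : 1 ≤ u) (hg : 1 ≤ g) (hgu : g ∣ u) :
    ∃ M : ℕ, 1 ≤ M ∧ M ∣ u ∧ M * g ∣ u ∧ u ≤ M * (Int.gcd κ (u : ℤ) * g ^ 3) ∧
      ∀ x : ℤ, (u : ℤ) ∣ κ * (g : ℤ) ^ 3 * x → (M : ℤ) ∣ x := by
  obtain ⟨G, hG⟩ : ∃ G : ℕ, G = Int.gcd (u : ℤ) (κ * (g : ℤ) ^ 3) := ⟨_, rfl⟩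
  have hGu : G ∣ u := by
    have := Int.gcd_dvd_left (a := (u : ℤ)) (b := κ * (g : ℤ) ^ 3)
    rw [← hG] at this
    exact_mod_cast this
  obtain ⟨M, hM⟩ := hGu
  have hG0 : 0 < G := Nat.pos_of_ne_zero fun h => by rw [h, zero_mul] at hM; omega
  have hM0 : 0 < M := Nat.pos_of_ne_zero fun h => by rw [h, mul_zero] at hM; omega
  have hgG : g ∣ G := by
    rw [hG]
    have : (g : ℤ) ∣ (Int.gcd (u : ℤ) (κ * (g : ℤ) ^ 3) : ℤ) := by
      refine Int.dvd_coe_gcd (by exact_mod_cast hgu) ?_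
      exact Dvd.dvd.mul_left (dvd_pow_self _ (by norm_num)) _
    exact_mod_cast this
  refine ⟨M, hM0, ⟨G, by rw [hM, mul_comm]⟩, ?_, ?_, ?_⟩
  · rw [hM, mul_comm G M]
    exact Nat.mul_dvd_mul_left M hgG
  · have h1 : G ≤ Int.gcd κ (u : ℤ) * g ^ 3 := by
      have h2 : G ∣ Int.gcd (u : ℤ) κ * Int.gcd (u : ℤ) ((g : ℤ) ^ 3) := by
        rw [hG]
        exact Int.gcd_mul_right_dvd_mul_gcd _ _ _
      have h3 : 0 < Int.gcd (u : ℤ) κ := Int.gcd_pos_of_ne_zero_left _ (by exact_mod_cast (by omega : u ≠ 0))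
      have h4 : 0 < Int.gcd (u : ℤ) ((g : ℤ) ^ 3) :=
        Int.gcd_pos_of_ne_zero_left _ (by exact_mod_cast (by omega : u ≠ 0))
      have h5 := Nat.le_of_dvd (Nat.mul_pos h3 h4) h2
      have h6 : Int.gcd (u : ℤ) ((g : ℤ) ^ 3) ≤ g ^ 3 := by
        have h7 : Int.gcd (u : ℤ) ((g : ℤ) ^ 3) ∣ g ^ 3 := by
          have := Int.gcd_dvd_right (a := (u : ℤ)) (b := (g : ℤ) ^ 3)
          exact_mod_cast this
        exact Nat.le_of_dvd (by positivity) h7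
      rw [Int.gcd_comm κ]
      exact h5.trans (Nat.mul_le_mul_left _ h6)
    calc u = M * G := by rw [hM, mul_comm]
      _ ≤ _ := Nat.mul_le_mul_left _ h1
  · intro x hx
    have hG' : (G : ℤ) ∣ κ * (g : ℤ) ^ 3 := by
      rw [hG]
      exact Int.gcd_dvd_right _ _
    obtain ⟨a, ha⟩ := hG'
    have hcop : IsCoprime (M : ℤ) a := by
      rw [Int.isCoprime_iff_gcd_eq_one]
      have h1 : Int.gcd ((G : ℤ) * M) ((G : ℤ) * a) = G * Int.gcd M a := by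
        rw [Int.gcd_mul_left]
        simp
      have h2 : Int.gcd ((G : ℤ) * M) ((G : ℤ) * a) = G := by
        rw [← ha]
        have : ((G : ℤ) * M) = (u : ℤ) := by rw [hM]; push_cast; ring
        rw [this]
        exact hG.symm
      rw [h2] at h1
      exact (Nat.eq_of_mul_eq_mul_left hG0 (by rw [mul_one]; exact h1)).symm
    have h1 : (M : ℤ) ∣ a * x := by
      have h2 : (G : ℤ) * M ∣ (G : ℤ) * (a * x) := by
        have h3 : (G : ℤ) * (a * x) = κ * (g : ℤ) ^ 3 * x := by rw [ha]; ring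
        rw [h3]
        have : ((G : ℤ) * M) = (u : ℤ) := by rw [hM]; push_cast; ring
        rw [this]
        exact hx
      exact (mul_dvd_mul_iff_left (by exact_mod_cast hG0.ne')).1 h2
    exact hcop.dvd_of_dvd_mul_left h1

/-- One residue. -/
theorem fib (N u g : ℕ) (κ τ : ℤ) (hu : 1 ≤ u) (hg : 1 ≤ g) (C ε : ℝ) (hC : 0 < C) (hε : 0 < ε)
    (hroots : ∀ u : ℕ, 1 ≤ u →
      (((Finset.range u).filter (fun x => Nat.Coprime x u ∧ x ^ 3 ≡ 1 [MOD u])).card : ℝ) ≤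
      C * (u : ℝ) ^ ε) (hgu : g ∣ u) :
    (((Finset.Icc 1 N).filter
      (fun h => Nat.gcd h u = g ∧ (u : ℤ) ∣ κ * (h : ℤ) ^ 3 - τ)).card : ℝ) ≤
      C * (u : ℝ) ^ ε * (1 + (N : ℝ) * (Int.gcd κ (u : ℤ) : ℝ) * (g : ℝ) ^ 2 / (u : ℝ)) := by
  classical
  obtain ⟨M, hM1, hMu, hMg, hle, hMd⟩ := exists_M u g κ hu hg hgu
  have hu0 : (0 : ℝ) < u := by exact_mod_cast hu
  have hg0 : (0 : ℝ) < g := by exact_mod_cast hg
  have hM0 : (0 : ℝ) < M := by exact_mod_cast hM1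
  set F := (Finset.Icc 1 N).filter
      (fun h => Nat.gcd h u = g ∧ (u : ℤ) ∣ κ * (h : ℤ) ^ 3 - τ) with hF
  rcases F.eq_empty_or_nonempty with h0 | ⟨h₂, hh₂⟩
  · rw [h0, Finset.card_empty, Nat.cast_zero]
    positivity
  -- facts on the elements
  have hdiv : ∀ h ∈ F, g ∣ h := by
    intro h hh
    rw [hF, Finset.mem_filter] at hh
    rw [← hh.2.1]
    exact Nat.gcd_dvd_left _ _
  have hcop : ∀ h ∈ F, Nat.Coprime (h / g) M := by
    intro h hh
    obtain ⟨y, hy⟩ := hdiv h hh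
    have h1 : h / g = y := by rw [hy]; exact Nat.mul_div_cancel_left _ hg
    rw [h1]
    have h2 : Nat.gcd y M * g ∣ g := by
      have h3 : Nat.gcd y M * g ∣ Nat.gcd h u := by
        refine Nat.dvd_gcd ?_ ?_
        · rw [hy, mul_comm g y]
          exact Nat.mul_dvd_mul_right (Nat.gcd_dvd_left _ _) g
        · exact (Nat.mul_dvd_mul_right (Nat.gcd_dvd_right _ _) g).trans hMg
      rw [hF, Finset.mem_filter] at hh
      rwa [hh.2.1] at h3
    have h4 := Nat.le_of_dvd (by omega) h2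
    have h5 : 0 < Nat.gcd y M := Nat.gcd_pos_of_pos_right _ hM1
    have h6 : Nat.gcd y M ≤ 1 := by
      by_contra h7
      push Not at h7
      have : 2 * g ≤ Nat.gcd y M * g := Nat.mul_le_mul_right g h7
      omega
    exact Nat.le_antisymm h6 h5
  have hcube : ∀ h ∈ F, ∀ h' ∈ F, (M : ℤ) ∣ ((h / g : ℕ) : ℤ) ^ 3 - ((h' / g : ℕ) : ℤ) ^ 3 := by
    intro h hh h' hh'
    obtain ⟨y, hy⟩ := hdiv h hh
    obtain ⟨y', hy'⟩ := hdiv h' hh'
    have h1 : h / g = y := by rw [hy]; exact Nat.mul_div_cancel_left _ hg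
    have h1' : h' / g = y' := by rw [hy']; exact Nat.mul_div_cancel_left _ hg
    rw [h1, h1']
    apply hMd
    rw [hF, Finset.mem_filter] at hh hh'
    have h2 := dvd_sub hh.2.2 hh'.2.2
    have h3 : κ * (h : ℤ) ^ 3 - τ - (κ * (h' : ℤ) ^ 3 - τ) =
        κ * (g : ℤ) ^ 3 * ((y : ℤ) ^ 3 - (y' : ℤ) ^ 3) := by
      rw [hy, hy']
      push_cast
      ring
    rwa [h3] at h2
  -- the inverse of `y₂`
  obtain ⟨w, hw⟩ : ∃ w : ℕ, (h₂ / g) * w ≡ 1 [MOD M] := by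
    have h1 := hcop h₂ hh₂
    rcases Nat.lt_or_ge 1 M with h2 | h2
    · obtain ⟨w, hw⟩ := Nat.exists_mul_mod_eq_one_of_coprime h1 h2
      exact ⟨w, by rw [Nat.ModEq, hw.2, Nat.mod_eq_of_lt h2]⟩
    · have h3 : M = 1 := by omega
      exact ⟨0, by rw [h3]; exact Nat.modEq_one⟩
  have hwcop : Nat.Coprime w M := by
    have h1 : Nat.gcd ((h₂ / g) * w) M = 1 := by
      rw [Nat.ModEq.gcd_eq hw]
      exact Nat.gcd_one_left M
    exact (Nat.Coprime.coprime_mul_left (show Nat.Coprime ((h₂ / g) * w) M from h1))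
  let R := (Finset.range M).filter (fun x => Nat.Coprime x M ∧ x ^ 3 ≡ 1 [MOD M])
  let Q := Finset.range (N / g / M + 1)
  have hcard : F.card ≤ (R ×ˢ Q).card := by
    refine Finset.card_le_card_of_injOn (fun h => (((h / g) * w) % M, h / g / M)) ?_ ?_
    · intro h hh
      have hh' : h ∈ F := hh
      rw [Finset.mem_coe, Finset.mem_product]
      refine ⟨?_, ?_⟩
      · refine Finset.mem_filter.2 ⟨Finset.mem_range.2 (Nat.mod_lt _ hM1), ?_, ?_⟩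
        · have h1 : Nat.Coprime ((h / g) * w) M := Nat.Coprime.mul_left (hcop h hh') hwcop
          have h2 : Nat.gcd ((h / g * w) % M) M = Nat.gcd (h / g * w) M :=
            Nat.ModEq.gcd_eq (Nat.mod_modEq _ _)
          exact h2.trans h1
        · have h1 : ((h / g) * w) % M ≡ (h / g) * w [MOD M] := Nat.mod_modEq _ _
          refine (h1.pow 3).trans ?_
          have h2 : (h / g) ^ 3 ≡ (h₂ / g) ^ 3 [MOD M] := by
            rw [← Int.natCast_modEq_iff, Int.modEq_iff_dvd]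
            push_cast
            exact_mod_cast hcube h₂ hh₂ h hh'
          have h3 : ((h / g) * w) ^ 3 ≡ ((h₂ / g) * w) ^ 3 [MOD M] := by
            rw [mul_pow, mul_pow]
            exact Nat.ModEq.mul_right _ h2
          refine h3.trans ?_
          have h4 := hw.pow 3
          rwa [one_pow] at h4
      · refine Finset.mem_range.2 ?_
        have h1 : h ≤ N := by
          rw [hF, Finset.mem_filter, Finset.mem_Icc] at hh'
          exact hh'.1.2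
        have h2 : h / g / M ≤ N / g / M := Nat.div_le_div_right (Nat.div_le_div_right h1)
        exact Nat.lt_succ_of_le h2
    · intro h hh h' hh' heq
      have hh1 : h ∈ F := hh
      have hh2 : h' ∈ F := hh'
      have e1 : ((h / g) * w) % M = ((h' / g) * w) % M := congrArg Prod.fst heq
      have e2 : h / g / M = h' / g / M := congrArg Prod.snd heq
      have e3 : h / g ≡ h' / g [MOD M] := by
        have : (h / g) * w ≡ (h' / g) * w [MOD M] := e1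
        exact Nat.ModEq.cancel_right_of_coprime (by rw [Nat.gcd_comm]; exact hwcop) this
      have e4 : h / g = h' / g := by
        have h1 := Nat.div_add_mod (h / g) M
        have h2 := Nat.div_add_mod (h' / g) M
        have h3 : (h / g) % M = (h' / g) % M := e3
        rw [e2, h3] at h1
        exact h1.symm.trans h2
      obtain ⟨y, hy⟩ := hdiv h hh1
      obtain ⟨y', hy'⟩ := hdiv h' hh2
      have h1 : h / g = y := by rw [hy]; exact Nat.mul_div_cancel_left _ hg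
      have h1' : h' / g = y' := by rw [hy']; exact Nat.mul_div_cancel_left _ hg
      rw [h1, h1'] at e4
      rw [hy, hy', e4]
  rw [Finset.card_product] at hcard
  have hR := hroots M hM1
  have hQ : ((Q.card : ℕ) : ℝ) ≤ 1 + (N : ℝ) * (Int.gcd κ (u : ℤ) : ℝ) * (g : ℝ) ^ 2 / (u : ℝ) := by
    rw [Finset.card_range]
    push_cast
    have h1 : (((N / g / M : ℕ)) : ℝ) ≤ (N : ℝ) / g / M := by
      refine Nat.cast_div_le.trans ?_
      gcongr
      exact Nat.cast_div_le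
    have h2 : (N : ℝ) / g / M ≤ (N : ℝ) * (Int.gcd κ (u : ℤ) : ℝ) * (g : ℝ) ^ 2 / (u : ℝ) := by
      rw [div_div, div_le_div_iff₀ (by positivity) hu0]
      have h3 : (u : ℝ) ≤ M * ((Int.gcd κ (u : ℤ) : ℝ) * (g : ℝ) ^ 3) := by exact_mod_cast hle
      calc (N : ℝ) * u ≤ N * (M * ((Int.gcd κ (u : ℤ) : ℝ) * (g : ℝ) ^ 3)) := by gcongr
        _ = _ := by ring
    linarith
  calc (F.card : ℝ) ≤ ((R.card * Q.card : ℕ) : ℝ) := by exact_mod_cast hcard
    _ = (R.card : ℝ) * (Q.card : ℝ) := by push_cast; ring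
    _ ≤ (C * (u : ℝ) ^ ε) *
        (1 + (N : ℝ) * (Int.gcd κ (u : ℤ) : ℝ) * (g : ℝ) ^ 2 / (u : ℝ)) := by
      refine mul_le_mul ?_ hQ (by positivity) (by positivity)
      refine hR.trans ?_
      have h1 : (M : ℝ) ≤ u := by exact_mod_cast Nat.le_of_dvd (by omega) hMu
      gcongr

theorem cub (rtu : VM.RtuStmt) : CubStmt := by
  intro ε hε
  obtain ⟨C, hC, hroots⟩ := rtu 3 (by norm_num) (ε / 4) (by positivity)
  refine ⟨2 * C, by positivity, ?_⟩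
  intro N u g κ c s₀ hN hu huN hg hc hs
  classical
  obtain ⟨g₁, hg₁⟩ : ∃ g₁ : ℕ, g₁ = Int.gcd κ (u : ℤ) := ⟨_, rfl⟩
  have hg₁0 : 0 < g₁ := by
    rw [hg₁]
    exact Int.gcd_pos_of_ne_zero_right _ (by exact_mod_cast (by omega : u ≠ 0))
  have hg₁R : (1 : ℝ) ≤ g₁ := by exact_mod_cast hg₁0
  have hgR : (1 : ℝ) ≤ g := by exact_mod_cast hg
  have hu0 : (0 : ℝ) < u := by exact_mod_cast hu
  have hN0 : (1 : ℝ) ≤ N := by exact_mod_cast hN
  rw [← hg₁]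
  rw [Nat.subtype_card ((Finset.Icc 1 N).filter (fun h => Nat.gcd h u = g ∧
        ∃ σ : ℤ, |(σ : ℝ)| ≤ s₀ ∧ (u : ℤ) ∣ κ * (h : ℤ) ^ 3 - σ * c)) (by
    intro x
    rw [Finset.mem_filter, Finset.mem_Icc]
    tauto)]
  by_cases hgu : g ∣ u
  swap
  · have h0 : (Finset.Icc 1 N).filter (fun h => Nat.gcd h u = g ∧
        ∃ σ : ℤ, |(σ : ℝ)| ≤ s₀ ∧ (u : ℤ) ∣ κ * (h : ℤ) ^ 3 - σ * c) = ∅ := by
      rw [Finset.filter_eq_empty_iff]
      intro h _ h1
      apply hgu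
      rw [← h1.1]
      exact Nat.gcd_dvd_right _ _
    rw [h0, Finset.card_empty, Nat.cast_zero]
    positivity
  -- the values of `σ`
  obtain ⟨L, hL⟩ : ∃ L : ℕ, L = ⌊s₀ / g₁⌋₊ := ⟨_, rfl⟩
  have hLle : (L : ℝ) ≤ s₀ / g₁ := by
    rw [hL]
    exact Nat.floor_le (by positivity)
  let T : Finset ℤ := Finset.Icc (-(L : ℤ)) (L : ℤ)
  have hsub : (Finset.Icc 1 N).filter (fun h => Nat.gcd h u = g ∧
        ∃ σ : ℤ, |(σ : ℝ)| ≤ s₀ ∧ (u : ℤ) ∣ κ * (h : ℤ) ^ 3 - σ * c) ⊆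
      T.biUnion (fun i => (Finset.Icc 1 N).filter
        (fun h => Nat.gcd h u = g ∧ (u : ℤ) ∣ κ * (h : ℤ) ^ 3 - (i * g₁) * c)) := by
    intro h hh
    rw [Finset.mem_filter] at hh
    obtain ⟨h1, h2, σ, h3, h4⟩ := hh
    have h5 : (g₁ : ℤ) ∣ σ := by
      have h6 : (g₁ : ℤ) ∣ (u : ℤ) := by rw [hg₁]; exact Int.gcd_dvd_right _ _
      have h7 : (g₁ : ℤ) ∣ κ := by rw [hg₁]; exact Int.gcd_dvd_left _ _
      have h8 : (g₁ : ℤ) ∣ σ * c := by
        have h9 := h6.trans h4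
        have h10 : (g₁ : ℤ) ∣ κ * (h : ℤ) ^ 3 := h7.mul_right _
        have h11 := dvd_sub h10 h9
        have h12 : κ * (h : ℤ) ^ 3 - (κ * (h : ℤ) ^ 3 - σ * c) = σ * c := by ring
        rwa [h12] at h11
      have h9 : IsCoprime (g₁ : ℤ) c := by
        have h10 : IsCoprime (u : ℤ) c := by
          rw [Int.isCoprime_iff_gcd_eq_one, Int.gcd_comm]
          exact hc
        exact h10.of_isCoprime_of_dvd_left h6
      exact h9.dvd_of_dvd_mul_right h8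
    obtain ⟨i, hi⟩ := h5
    rw [Finset.mem_biUnion]
    refine ⟨i, ?_, ?_⟩
    · rw [Finset.mem_Icc, ← abs_le]
      have h6 : |(i : ℝ)| ≤ s₀ / g₁ := by
        rw [le_div_iff₀ (by linarith)]
        have h7 : |(σ : ℝ)| = |(i : ℝ)| * g₁ := by
          rw [hi]
          push_cast
          rw [abs_mul, abs_of_nonneg (by linarith : (0 : ℝ) ≤ g₁), mul_comm]
        rw [← h7]
        exact h3
      have h7 : ((i.natAbs : ℕ) : ℝ) ≤ s₀ / g₁ := by
        rw [Nat.cast_natAbs, Int.cast_abs]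
        exact h6
      have h8 : i.natAbs ≤ L := by
        rw [hL]
        exact Nat.le_floor h7
      rw [Int.abs_eq_natAbs]
      exact_mod_cast h8
    · rw [Finset.mem_filter]
      refine ⟨h1, h2, ?_⟩
      rw [hi] at h4
      have h5 : (g₁ : ℤ) * i * c = i * g₁ * c := by ring
      rwa [h5] at h4
  have hcard : (((Finset.Icc 1 N).filter (fun h => Nat.gcd h u = g ∧
        ∃ σ : ℤ, |(σ : ℝ)| ≤ s₀ ∧ (u : ℤ) ∣ κ * (h : ℤ) ^ 3 - σ * c)).card : ℝ) ≤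
      (2 * (L : ℝ) + 1) * (C * (u : ℝ) ^ (ε / 4) *
        (1 + (N : ℝ) * (g₁ : ℝ) * (g : ℝ) ^ 2 / (u : ℝ))) := by
    have h1 := (Finset.card_le_card hsub).trans Finset.card_biUnion_le
    calc _ ≤ ((∑ i ∈ T, ((Finset.Icc 1 N).filter
        (fun h => Nat.gcd h u = g ∧ (u : ℤ) ∣ κ * (h : ℤ) ^ 3 - (i * g₁) * c)).card : ℕ) : ℝ) := by
          exact_mod_cast h1
      _ = ∑ i ∈ T, (((Finset.Icc 1 N).filter
        (fun h => Nat.gcd h u = g ∧ (u : ℤ) ∣ κ * (h : ℤ) ^ 3 - (i * g₁) * c)).card : ℝ) := by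
          push_cast; rfl
      _ ≤ ∑ _i ∈ T, (C * (u : ℝ) ^ (ε / 4) *
        (1 + (N : ℝ) * (g₁ : ℝ) * (g : ℝ) ^ 2 / (u : ℝ))) := by
          refine Finset.sum_le_sum fun i _ => ?_
          have h2 := fib N u g κ (i * g₁ * c) hu hg C (ε / 4) hC (by positivity) hroots hgu
          rw [← hg₁] at h2
          exact h2
      _ = _ := by
          rw [Finset.sum_const, nsmul_eq_mul]
          congr 1
          have h3 : T.card = 2 * L + 1 := by
            rw [Int.card_Icc]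
            omega
          rw [h3]
          push_cast
          ring
  refine hcard.trans ?_
  have hupow : (u : ℝ) ^ (ε / 4) ≤ (N : ℝ) ^ ε := by
    have h1 : (u : ℝ) ≤ (N : ℝ) ^ (4 : ℝ) := by
      have : (u : ℝ) ≤ (N : ℝ) ^ 4 := by exact_mod_cast huN
      calc (u : ℝ) ≤ (N : ℝ) ^ 4 := this
        _ = (N : ℝ) ^ (4 : ℝ) := by
          rw [← Real.rpow_natCast]
          norm_num
    calc (u : ℝ) ^ (ε / 4) ≤ ((N : ℝ) ^ (4 : ℝ)) ^ (ε / 4) := by gcongr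
      _ = (N : ℝ) ^ ε := by
        rw [← Real.rpow_mul (by linarith)]
        congr 1
        ring
  have hmain : (2 * (L : ℝ) + 1) * (1 + (N : ℝ) * (g₁ : ℝ) * (g : ℝ) ^ 2 / (u : ℝ)) ≤
      2 * ((g : ℝ) ^ 2 * (1 + (N : ℝ) / (u : ℝ)) * (s₀ + 1 + (g₁ : ℝ))) := by
    have hx : (0 : ℝ) ≤ (N : ℝ) / u := by positivity
    obtain ⟨x, hxx⟩ : ∃ x : ℝ, x = (N : ℝ) / u := ⟨_, rfl⟩
    have h1 : (N : ℝ) * (g₁ : ℝ) * (g : ℝ) ^ 2 / (u : ℝ) = x * g₁ * (g : ℝ) ^ 2 := by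
      rw [hxx]
      ring
    rw [h1, ← hxx]
    rw [← hxx] at hx
    have hg2 : (1 : ℝ) ≤ (g : ℝ) ^ 2 := one_le_pow₀ hgR
    have hL1 : (L : ℝ) * g₁ ≤ s₀ := by
      rwa [le_div_iff₀ (by linarith)] at hLle
    have hL2 : (L : ℝ) ≤ s₀ := by
      have hL0 : (0 : ℝ) ≤ L := Nat.cast_nonneg _
      nlinarith
    have hL0 : (0 : ℝ) ≤ L := Nat.cast_nonneg _
    have e1 : (2 * (L : ℝ) + 1) * (1 + x * g₁ * (g : ℝ) ^ 2) =
        (2 * L + 1) + x * (g : ℝ) ^ 2 * (2 * (L * g₁) + g₁) := by ring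
    have e2 : 2 * ((g : ℝ) ^ 2 * (1 + x) * (s₀ + 1 + (g₁ : ℝ))) =
        (g : ℝ) ^ 2 * (2 * s₀ + 2 + 2 * g₁) + x * (g : ℝ) ^ 2 * (2 * s₀ + 2 + 2 * g₁) := by ring
    rw [e1, e2]
    have h2 : 2 * (L : ℝ) + 1 ≤ (g : ℝ) ^ 2 * (2 * s₀ + 2 + 2 * g₁) := by
      have : (1 : ℝ) * (2 * s₀ + 2 + 2 * g₁) ≤ (g : ℝ) ^ 2 * (2 * s₀ + 2 + 2 * g₁) :=
        mul_le_mul_of_nonneg_right hg2 (by linarith)
      linarith
    have h3 : x * (g : ℝ) ^ 2 * (2 * (L * g₁) + g₁) ≤ x * (g : ℝ) ^ 2 * (2 * s₀ + 2 + 2 * g₁) := by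
      refine mul_le_mul_of_nonneg_left ?_ (by positivity)
      linarith
    linarith
  have hA : (0 : ℝ) ≤ 1 + (N : ℝ) * (g₁ : ℝ) * (g : ℝ) ^ 2 / (u : ℝ) := by positivity
  calc (2 * (L : ℝ) + 1) * (C * (u : ℝ) ^ (ε / 4) *
        (1 + (N : ℝ) * (g₁ : ℝ) * (g : ℝ) ^ 2 / (u : ℝ))) =
      C * (u : ℝ) ^ (ε / 4) * ((2 * (L : ℝ) + 1) *
        (1 + (N : ℝ) * (g₁ : ℝ) * (g : ℝ) ^ 2 / (u : ℝ))) := by ring
    _ ≤ C * (N : ℝ) ^ ε * (2 * ((g : ℝ) ^ 2 * (1 + (N : ℝ) / (u : ℝ)) *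
        (s₀ + 1 + (g₁ : ℝ)))) := by
      refine mul_le_mul ?_ hmain (by positivity) (by positivity)
      exact mul_le_mul_of_nonneg_left hupow hC.le
    _ = _ := by ring

end Pool.Agent.VM5.H48
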